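import Pool.Agent.H466.HD.SC
import Pool.Agent.H466.HN.N4

/-!
# Few zeros of the flow near the line at negative times: statement for `ξ`
-/

set_option autoImplicit false

open Complex MeasureTheory Filter Topology Set
open scoped ComplexConjugate

namespace Pool.Agent.H466.HD

open Pool.Agent.H466.HF Pool.Agent.H466.LD Pool.Agent.H466.HP Pool.Agent.H466.HN

lemma comp_sub_order {f : ℂ → ℂ} (hf : Differentiable ℂ f) (a s : ℂ) :
    analyticOrderNatAt (fun z => f (z - a)) s = analyticOrderNatAt f (s - a) := by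
  have h1 : AnalyticAt ℂ f (s - a) := hf.analyticAt _
  have h2 : AnalyticAt ℂ (fun z : ℂ => z - a) s := by fun_prop
  have h3 : deriv (fun z : ℂ => z - a) s ≠ 0 := by
    simp
  unfold analyticOrderNatAt
  have h4 := analyticOrderAt_comp_of_deriv_ne_zero (f := f) (g := fun z : ℂ => z - a) (z₀ := s)
    h2 h3
  have e : (f ∘ fun z : ℂ => z - a) = fun z => f (z - a) := rfl
  rw [e] at h4
  rw [h4]

lemma flow_order (lam : ℝ) (s : ℂ) :
    analyticOrderNatAt (flow lam) s = analyticOrderNatAt (LL gk lam) (s - 1 / 2) := by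
  obtain ⟨A, k⟩ := gk_kern
  rw [flow_fun]
  exact comp_sub_order (k.differentiable lam) _ _

theorem near (h : S_FIN) : ∃ C : ℝ, 0 < C ∧ ∀ κ : ℝ, 0 < κ → κ ≤ 1 / 16 →
    ∃ A0 δ T0 : ℝ, 0 < A0 ∧ 0 < δ ∧ 10 ≤ T0 ∧ ∀ T lam : ℝ, T0 ≤ T →
      A0 / Real.log T ^ 2 ≤ lam → lam ≤ δ / Real.log T →
      ∀ S : Finset ℂ, (∀ s ∈ S, flow (-lam) s = 0 ∧ |s.re - 1 / 2| ≤ κ * (lam * Real.log T) ∧
        T ≤ s.im ∧ s.im ≤ 2 * T) →
        ∑ s ∈ S, (analyticOrderNatAt (flow (-lam)) s : ℝ) ≤ C * κ * (T * Real.log T) := by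
  obtain ⟨C, hC, h⟩ := h
  refine ⟨C, hC, fun κ hκ hκ1 => ?_⟩
  obtain ⟨A0, δ, T0, hA0, hδ, hT0, h⟩ := h κ hκ hκ1
  refine ⟨A0, δ, T0, by linarith, hδ, hT0, fun T lam hT h1 h2 S hS => ?_⟩
  have hL : 0 < Real.log T := Real.log_pos (by linarith)
  have hlam : 0 < lam := lt_of_lt_of_le (by positivity) h1
  rw [div_le_iff₀ (by positivity)] at h1
  rw [le_div_iff₀ hL] at h2
  have h3 := h T lam hT hlam h1 h2 (S.image (fun s : ℂ => s - 1 / 2)) (by
    intro z hz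
    obtain ⟨s, hs, rfl⟩ := Finset.mem_image.mp hz
    obtain ⟨a1, a2, a3, a4⟩ := hS s hs
    rw [flow_eq] at a1
    refine ⟨a1, ?_, ?_, ?_⟩
    · simpa using a2
    · simpa using a3
    · simpa using a4)
  rw [Finset.sum_image (fun a _ b _ h => sub_left_injective h)] at h3
  refine le_trans (le_of_eq ?_) h3
  refine Finset.sum_congr rfl fun s _ => ?_
  rw [flow_order]

theorem total (h : S_TLB) : ∃ c δ T0 : ℝ, 0 < c ∧ 0 < δ ∧ 10 ≤ T0 ∧ ∀ T lam : ℝ, T0 ≤ T → 0 < lam →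
      lam ≤ δ / Real.log T →
      ∃ Z : Finset ℂ, (∀ s ∈ Z, flow (-lam) s = 0 ∧ T ≤ s.im ∧ s.im ≤ 2 * T) ∧
        c * (T * Real.log T) ≤ ∑ s ∈ Z, (analyticOrderNatAt (flow (-lam)) s : ℝ) := by
  obtain ⟨c, δ, T0, hc, hδ, hT0, h⟩ := h
  refine ⟨c, δ, T0, hc, hδ, hT0, fun T lam hT hlam h2 => ?_⟩
  have hL : 0 < Real.log T := Real.log_pos (by linarith)
  rw [le_div_iff₀ hL] at h2
  obtain ⟨S, hS, hs⟩ := h T lam hT hlam h2
  refine ⟨S.image (fun z => z + 1 / 2), ?_, ?_⟩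
  · intro s hs
    obtain ⟨z, hz, rfl⟩ := Finset.mem_image.mp hs
    obtain ⟨a1, a2, a3⟩ := hS z hz
    refine ⟨?_, ?_, ?_⟩
    · rw [flow_eq, add_sub_cancel_right]
      exact a1
    · simpa using a2
    · simpa using a3
  · rw [Finset.sum_image (fun a _ b _ h => add_left_injective _ h)]
    refine hs.trans (le_of_eq ?_)
    refine Finset.sum_congr rfl fun s _ => ?_
    rw [flow_order, add_sub_cancel_right]

/-- **few zeros near the line** -/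
theorem proportion (h1 : S_FIN) (h2 : S_TLB) : ∀ ε : ℝ, 0 < ε →
    ∃ κ A0 δ T0 : ℝ, 0 < κ ∧ 0 < A0 ∧ 0 < δ ∧ 10 ≤ T0 ∧ ∀ T lam : ℝ, T0 ≤ T →
      A0 / Real.log T ^ 2 ≤ lam → lam ≤ δ / Real.log T →
      ∃ Z : Finset ℂ, (∀ s ∈ Z, flow (-lam) s = 0 ∧ T ≤ s.im ∧ s.im ≤ 2 * T) ∧
        ∀ S : Finset ℂ, (∀ s ∈ S, flow (-lam) s = 0 ∧ |s.re - 1 / 2| ≤ κ * (lam * Real.log T) ∧
          T ≤ s.im ∧ s.im ≤ 2 * T) →
          ∑ s ∈ S, (analyticOrderNatAt (flow (-lam)) s : ℝ) ≤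
            ε * ∑ s ∈ Z, (analyticOrderNatAt (flow (-lam)) s : ℝ) := by
  intro ε hε
  obtain ⟨C, hC, hn⟩ := near h1
  obtain ⟨c, δ1, T1, hc, hδ1, hT1, ht⟩ := total h2
  obtain ⟨κ, hκe⟩ : ∃ κ : ℝ, κ = min (1 / 16) (ε * c / C) := ⟨_, rfl⟩
  have hκ : 0 < κ := by rw [hκe]; exact lt_min (by norm_num) (by positivity)
  obtain ⟨A0, δ, T0, hA0, hδ, hT0, hn⟩ := hn κ hκ (by rw [hκe]; exact min_le_left _ _)
  refine ⟨κ, A0, min δ δ1, max T0 T1, hκ, hA0, lt_min hδ hδ1, hT0.trans (le_max_left _ _), ?_⟩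
  intro T lam hT h3 h4
  have b0 : T0 ≤ T := (le_max_left _ _).trans hT
  have b1 : T1 ≤ T := (le_max_right _ _).trans hT
  have hT10 : 10 ≤ T := hT0.trans b0
  have hL : 0 < Real.log T := Real.log_pos (by linarith)
  have hlam : 0 < lam := lt_of_lt_of_le (by positivity) h3
  have h5 : lam ≤ δ / Real.log T := h4.trans (by
    gcongr; exact min_le_left _ _)
  have h6 : lam ≤ δ1 / Real.log T := h4.trans (by
    gcongr; exact min_le_right _ _)
  obtain ⟨Z, hZ, hZc⟩ := ht T lam b1 hlam h6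
  refine ⟨Z, hZ, fun S hS => (hn T lam b0 h3 h5 S hS).trans ?_⟩
  have h7 : C * κ ≤ ε * c := by
    have : κ ≤ ε * c / C := by rw [hκe]; exact min_le_right _ _
    rw [le_div_iff₀ hC] at this
    linarith
  calc C * κ * (T * Real.log T) ≤ ε * c * (T * Real.log T) :=
        mul_le_mul_of_nonneg_right h7 (by positivity)
    _ = ε * (c * (T * Real.log T)) := by ring
    _ ≤ _ := mul_le_mul_of_nonneg_left hZc hε.le

end Pool.Agent.H466.HD
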