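import Pool.Agent.H477.E.StmB

/-!
# Statements, part A: pieces of zeta are not small (number theory)

`L = log T`. `Mt θ T` is the smooth mollifier of length `T^{2θ}`. Throughout, `b(u) = β((u - c) / w)` is a bump
function of the frequency `u`, supported in the band `[c - w, c + w]`.
-/

set_option autoImplicit false

namespace Pool.Agent.H466.HD

open Complex MeasureTheory Set Filter Topology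
open scoped ComplexConjugate
open Pool.Agent.H477.E (MT bc Nn)

noncomputable section

/-- zeta on the critical line -/
def Zt (y : ℝ) : ℂ := riemannZeta (1 / 2 + (y : ℂ) * I)

/-- the mollifier on the critical line -/
def Mt (θ T y : ℝ) : ℂ := MT θ T (1 / 2 + (y : ℂ) * I)

/-- a bump function `β`, its Fourier transform `k` -/
structure Bump (β : ℝ → ℝ) (k : ℝ → ℂ) (C : ℝ) : Prop where
  Cp : 0 < C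
  cont : Continuous β
  nonneg : ∀ x, 0 ≤ β x
  le_one : ∀ x, β x ≤ 1
  one : ∀ x, |x| ≤ 1 / 2 → β x = 1
  supp : ∀ x, 1 ≤ |x| → β x = 0
  kcont : Continuous k
  kdef : ∀ v : ℝ, k v = ((1 / (2 * Real.pi) : ℝ) : ℂ) * ∫ x : ℝ, (β x : ℂ) * cexp (I * x * v)
  kbd : ∀ v : ℝ, ‖k v‖ ≤ C / (1 + |v|) ^ 10
  inv : ∀ x : ℝ, (β x : ℂ) = ∫ v : ℝ, k v * cexp (-(I * x * v))
  lap : ∀ z : ℂ, ‖∫ x : ℝ, (β x : ℂ) * cexp (x * z)‖ ≤ C * Real.exp |z.re| / (1 + ‖z‖) ^ 10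

/-- **BUMP** -/
def S_BUMP : Prop := ∃ (β : ℝ → ℝ) (k : ℝ → ℂ) (C : ℝ), Bump β k C

/-- piece of zeta with the frequencies in `[c - w, c + w]` -/
def Dn (β : ℝ → ℝ) (c w y : ℝ) : ℂ :=
  ∑ n ∈ Finset.Icc 1 ⌊Real.exp (c + w)⌋₊,
    (β ((Real.log n - c) / w) : ℂ) * (n : ℂ) ^ (-(1 / 2 + (y : ℂ) * I))

/-- its kernel -/
def Kn (k : ℝ → ℂ) (c w v : ℝ) : ℂ := w * k (w * v) * cexp (I * c * v)

/-- contribution of the pole -/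
def Rn (β : ℝ → ℝ) (c w y : ℝ) : ℂ :=
  w * ∫ x : ℝ, (β x : ℂ) * cexp ((c + w * x) * (1 / 2 - (y : ℂ) * I))

/-- **DB** -/
def S_DB : Prop := ∀ (β : ℝ → ℝ) (k : ℝ → ℂ) (C : ℝ), Bump β k C → ∀ c w y : ℝ, 1 ≤ w →
  Integrable (fun v : ℝ => Zt (y + v) * Kn k c w v) ∧
  Dn β c w y = (∫ v : ℝ, Zt (y + v) * Kn k c w v) + Rn β c w y

/-- **KER** -/
def S_KER : Prop := ∃ θ0 : ℝ, 0 < θ0 ∧ ∀ θ : ℝ, 0 < θ → θ ≤ θ0 → ∃ C T0 : ℝ, 0 < C ∧ 10 ≤ T0 ∧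
  ∀ T : ℝ, T0 ≤ T → ∀ (K : ℝ → ℂ) (B : ℝ), Continuous K → 0 ≤ B →
  (∀ v, ‖K v‖ ≤ B * Real.log T / (1 + Real.log T * |v|) ^ 8) →
  ∫ y in (T - T / (4 * Real.log T))..(T + T / (4 * Real.log T)),
    (‖∫ v : ℝ, Zt (y + v) * K v‖ * ‖Mt θ T y‖) ^ 2 ≤ C * B ^ 2 * (T / Real.log T)

/-- **MVT**: mean value theorem for well spaced frequencies -/
def S_MVT : Prop := ∀ (ι : Type) (s : Finset ι) (lam : ι → ℝ) (a : ι → ℂ) (δ X Y : ℝ), 0 < δ → X ≤ Y →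
  (∀ i ∈ s, ∀ j ∈ s, i ≠ j → δ ≤ |lam i - lam j|) →
  |(∫ t in X..Y, ‖∑ i ∈ s, a i * cexp (-(I * lam i * t))‖ ^ 2) - (Y - X) * ∑ i ∈ s, ‖a i‖ ^ 2| ≤
    8 / δ * (1 + Real.log s.card) * ∑ i ∈ s, ‖a i‖ ^ 2

/-- **PR**: sums over primes -/
def S_PR : Prop :=
  (∃ C : ℝ, 0 < C ∧ ∀ (u w x : ℝ) (N : ℕ), 1 ≤ u → 0 < w → w ≤ 1 →
    ∑ p ∈ (Finset.Icc 1 N).filter (fun p : ℕ => p.Prime ∧ u ≤ Real.log p),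
      Real.exp (-(w ^ 2 * (x - Real.log p) ^ 2)) / p ≤ C / (w * u)) ∧
  ∀ ε : ℝ, 0 < ε → ∃ c U : ℝ, 0 < c ∧ 1 ≤ U ∧ ∀ u : ℝ, U ≤ u →
    c ≤ ∑ p ∈ (Finset.Icc 1 ⌊Real.exp ((1 + ε) * u)⌋₊).filter (fun p : ℕ => p.Prime ∧ u ≤ Real.log p),
      1 / (p : ℝ)

/-- **EUL**: an Euler product -/
def S_EUL : Prop := ∃ C : ℝ, 0 < C ∧ ∀ (x v : ℝ) (N : ℕ), 0 < x → x ≤ 1 →
  ∑ j ∈ Finset.Icc 2 N, (∏ p ∈ j.primeFactors, ‖1 - cexp (I * v * Real.log p)‖ ^ 2) /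
    (j : ℝ) ^ (1 + 2 * x) ≤ C * ((|v| / x) ^ 2 + (|v| / x) ^ 8)

/-- an admissible band of frequencies -/
structure Bd (ε L c w : ℝ) : Prop where
  ep : 0 < ε
  w1 : ε * L ≤ w
  lo : L / 4 ≤ c - w
  hi : c + w ≤ (1 / 2 - ε) * L

/-- coefficients of the product of `Dn` and the mollifier -/
def cf (θ L : ℝ) (β : ℝ → ℝ) (c w : ℝ) (k : ℕ) : ℂ :=
  ∑ m ∈ k.divisors, bc θ L 0 m * (β ((Real.log ((k : ℝ) / (m : ℝ)) - c) / w) : ℂ)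

/-- **CK**: mean square of the coefficients -/
def S_CK : Prop := ∀ (β : ℝ → ℝ) (k : ℝ → ℂ) (C0 : ℝ), Bump β k C0 → ∀ ε : ℝ, 0 < ε →
  ∃ θ0 : ℝ, 0 < θ0 ∧ ∀ θ : ℝ, 0 < θ → θ ≤ θ0 → ∃ C T0 : ℝ, 0 < C ∧ 10 ≤ T0 ∧
  ∀ T c w : ℝ, T0 ≤ T → Bd ε (Real.log T) c w → ∀ N : ℕ,
    ∑ j ∈ Finset.Icc 1 N, ‖cf θ (Real.log T) β c w j‖ ^ 2 / j ≤ C

/-- the primes in the band -/
def Pb (c w : ℝ) : Finset ℕ :=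
  (Finset.Icc 1 ⌊Real.exp (c + w)⌋₊).filter (fun p : ℕ => p.Prime ∧ c - w ≤ Real.log p)

/-- the prime polynomial -/
def Pn (β : ℝ → ℝ) (c w y : ℝ) : ℂ :=
  ∑ p ∈ Pb c w, (β ((Real.log p - c) / w) : ℂ) * (p : ℂ) ^ (-(1 / 2 + (y : ℂ) * I))

/-- the main term -/
def m0 (β : ℝ → ℝ) (c w : ℝ) : ℝ := ∑ p ∈ Pb c w, β ((Real.log p - c) / w) ^ 2 / p

/-- the terms divisible by the prime -/
def hf (θ L : ℝ) (β : ℝ → ℝ) (c w : ℝ) (j : ℕ) : ℂ :=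
  ∑ p ∈ Pb c w, (β ((Real.log p - c) / w) : ℂ) / p * cf θ L β c w (p * j)

/-- Gaussian average around `t` -/
def Gav (w0 : ℝ) (f : ℝ → ℂ) (t : ℝ) : ℂ :=
  ((1 / (w0 * Real.sqrt (2 * Real.pi)) : ℝ) : ℂ) *
    ∫ y : ℝ, f y * (Real.exp (-(y - t) ^ 2 / (2 * w0 ^ 2)) : ℂ)

/-- length of the product -/
def N0 (θ L c w : ℝ) : ℕ := ⌊Real.exp (c + w)⌋₊ * Nn θ L

/-- the tested product -/
def Tp (θ T : ℝ) (β : ℝ → ℝ) (c w y : ℝ) : ℂ := Dn β c w y * Mt θ T y * conj (Pn β c w y)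

/-- **L2**: mean square of the local average, from its coefficients -/
def S_L2 : Prop := ∀ (β : ℝ → ℝ) (k : ℝ → ℂ) (C0 : ℝ), Bump β k C0 → ∀ ε : ℝ, 0 < ε →
  ∃ θ0 : ℝ, 0 < θ0 ∧ ∀ θ : ℝ, 0 < θ → θ ≤ θ0 → ∃ T0 : ℝ, 10 ≤ T0 ∧
  ∀ T c w w0 : ℝ, T0 ≤ T → Bd ε (Real.log T) c w → 0 < w0 → w0 ≤ 1 →
    ∫ t in (T - T / (4 * Real.log T))..(T + T / (4 * Real.log T)),
      ‖Gav w0 (Tp θ T β c w) t - (m0 β c w : ℂ)‖ ^ 2 ≤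
    4 * (T / Real.log T) * (∑ p ∈ Pb c w, ∑ j ∈ Finset.Icc 1 (N0 θ (Real.log T) c w),
      ‖cf θ (Real.log T) β c w j‖ ^ 2 * β ((Real.log p - c) / w) ^ 2 / ((j : ℝ) * p) *
        Real.exp (-(w0 ^ 2 * (Real.log j - Real.log p) ^ 2)) +
      ∑ j ∈ Finset.Icc 2 (N0 θ (Real.log T) c w), ‖hf θ (Real.log T) β c w j‖ ^ 2 / j *
        Real.exp (-(w0 ^ 2 * Real.log j ^ 2)))

/-- **L3**: the small multiples of the primes -/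
def S_L3 : Prop := ∀ (β : ℝ → ℝ) (k : ℝ → ℂ) (C0 : ℝ), Bump β k C0 → ∀ ε : ℝ, 0 < ε →
  ∀ θ : ℝ, 0 < θ → θ ≤ 1 / 16 → ∃ C T0 : ℝ, 0 < C ∧ 10 ≤ T0 ∧
  ∀ (T c w w0 : ℝ) (N : ℕ), T0 ≤ T → Bd ε (Real.log T) c w → 0 < w0 → w0 ≤ 1 →
    1 ≤ w0 * Real.log T → (N : ℝ) ≤ Real.exp (θ * Real.log T) →
    ∑ j ∈ Finset.Icc 2 N, ‖hf θ (Real.log T) β c w j‖ ^ 2 / (j : ℝ) ^ (1 + 2 * w0) ≤
      C / (w0 * Real.log T) ^ 2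

/-- **LLN**: the local average is close to the main term for most points -/
def S_LLN : Prop := ∀ (β : ℝ → ℝ) (k : ℝ → ℂ) (C0 : ℝ), Bump β k C0 → ∀ ε : ℝ, 0 < ε →
  ∃ θ0 : ℝ, 0 < θ0 ∧ ∀ θ : ℝ, 0 < θ → θ ≤ θ0 → ∃ C T0 : ℝ, 0 < C ∧ 10 ≤ T0 ∧
  ∀ T c w w0 : ℝ, T0 ≤ T → Bd ε (Real.log T) c w → 0 < w0 → w0 ≤ 1 → 1 ≤ w0 * Real.log T →
    ∫ t in (T - T / (4 * Real.log T))..(T + T / (4 * Real.log T)),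
      ‖Gav w0 (Tp θ T β c w) t - (m0 β c w : ℂ)‖ ^ 2 ≤ C / (w0 * Real.log T) * (T / Real.log T)

/-- Gaussian average of zeta at the frequency `u` -/
def Wg (μ u y : ℝ) : ℂ :=
  ∫ v : ℝ, Zt (y + v) * cexp (I * u * v) * (Real.exp (-v ^ 2 / (8 * μ)) : ℂ)

/-- the piece of zeta with a Gaussian cut-off of the kernel -/
def DG (k : ℝ → ℂ) (c w μ y : ℝ) : ℂ :=
  ∫ v : ℝ, Zt (y + v) * Kn k c w v * (Real.exp (-v ^ 2 / (8 * μ)) : ℂ)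

/-- **NA**: replacing `Dn` by `DG` -/
def S_NA : Prop := ∀ (β : ℝ → ℝ) (k : ℝ → ℂ) (C0 : ℝ), Bump β k C0 → ∀ ε : ℝ, 0 < ε →
  ∃ θ0 : ℝ, 0 < θ0 ∧ ∀ θ : ℝ, 0 < θ → θ ≤ θ0 → ∃ C T0 : ℝ, 0 < C ∧ 10 ≤ T0 ∧
  ∀ T c w μ : ℝ, T0 ≤ T → Bd ε (Real.log T) c w → 0 < μ → 1 ≤ μ * Real.log T ^ 2 → μ ≤ 1 →
    Continuous (DG k c w μ) ∧ (∀ y : ℝ, ‖DG k c w μ y‖ ≤ C * (2 + |y|)) ∧
    (∫ y in (T - T / (4 * Real.log T))..(T + T / (4 * Real.log T)),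
      ‖(Dn β c w y - DG k c w μ y) * Mt θ T y * Pn β c w y‖ ≤
        C / (μ * Real.log T ^ 2) * (T / Real.log T)) ∧
    (∫ y in (T - T / (4 * Real.log T))..(T + T / (4 * Real.log T)),
      ‖DG k c w μ y * Mt θ T y * Pn β c w y‖ ≤ C * (T / Real.log T)) ∧
    (∫ y in (T - T / (4 * Real.log T))..(T + T / (4 * Real.log T)), ‖Pn β c w y‖ ^ 2 ≤
      C * (T / Real.log T))

/-- **GT**: Gaussian tails -/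
def S_GT : Prop := ∃ T0 : ℝ, 10 ≤ T0 ∧ ∀ (T w0 R : ℝ) (f : ℝ → ℝ), T0 ≤ T → 0 < w0 → w0 ≤ 1 → 0 ≤ R →
  Continuous f → (∀ y, 0 ≤ f y) → (∀ y, f y ≤ T ^ 20 * (1 + |y - T|) ^ 20) →
  ∫ t in (T - T / (8 * Real.log T))..(T + T / (8 * Real.log T)),
    1 / (w0 * Real.sqrt (2 * Real.pi)) *
      ∫ y in {y : ℝ | R ≤ |y - t|}, f y * Real.exp (-(y - t) ^ 2 / (2 * w0 ^ 2)) ≤
    2 * Real.exp (-(R ^ 2 / (4 * w0 ^ 2))) *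
      (∫ y in (T - T / (4 * Real.log T))..(T + T / (4 * Real.log T)), f y) + 1

/-- **NC**: second moment of the mollifier times zeta off the line -/
def S_NC : Prop := ∃ θ0 : ℝ, 0 < θ0 ∧ ∀ θ : ℝ, 0 < θ → θ ≤ θ0 → ∃ C T0 : ℝ, 0 < C ∧ 10 ≤ T0 ∧
  ∀ T a r w0 : ℝ, T0 ≤ T → 0 ≤ a → a ≤ 1 / 2 → 0 ≤ r → r ≤ 1 → 0 < w0 →
  ∫ t in (T - T / (8 * Real.log T))..(T + T / (8 * Real.log T)),
    ‖riemannZeta (1 / 2 + a + (t : ℂ) * I)‖ ^ 2 * (1 / (w0 * Real.sqrt (2 * Real.pi)) *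
      ∫ y in Icc (t - r) (t + r), ‖Mt θ T y‖ ^ 2 * Real.exp (-(y - t) ^ 2 / (2 * w0 ^ 2))) ≤
    C * (T / Real.log T) * Real.exp (4 * θ * a * Real.log T) * (1 + (a + r) * Real.log T) ^ 4

/-- **NTW**: the pieces of zeta are not small, short windows -/
def S_NTW : Prop := ∀ ρ ε η ε0 : ℝ, 0 < ρ → 0 < ε → ε ≤ 1 / 32 → 0 < η → 0 < ε0 →
  ∃ A0 δ T0 : ℝ, 1 ≤ A0 ∧ 0 < δ ∧ 10 ≤ T0 ∧ ∀ T ℓ μ : ℝ, T0 ≤ T → |ℓ - Real.log T| ≤ 1 → 0 < μ →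
    A0 ≤ μ * ℓ ^ 2 → μ * ℓ ≤ δ →
    volume {t : ℝ | t ∈ Icc (T - T / (8 * Real.log T)) (T + T / (8 * Real.log T)) ∧
      ∀ y u : ℝ, |y - t| ≤ ρ * (μ * ℓ) → (1 / 2 - 2 * ε) * ℓ ≤ u → u ≤ (1 / 2 - ε) * ℓ →
        ‖Wg μ u y‖ < Real.sqrt μ * Real.exp (-(η * (μ * ℓ ^ 2))) *
          ‖riemannZeta (1 / 2 + (μ * ℓ : ℝ) + (t : ℂ) * I)‖} ≤
      ENNReal.ofReal (ε0 * (T / Real.log T))

/-- **NT**: the pieces of zeta are not small -/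
def S_NT : Prop := ∀ ρ ε η ε0 : ℝ, 0 < ρ → 0 < ε → ε ≤ 1 / 32 → 0 < η → 0 < ε0 →
  ∃ A0 δ T0 : ℝ, 1 ≤ A0 ∧ 0 < δ ∧ 10 ≤ T0 ∧ ∀ T μ : ℝ, T0 ≤ T → 0 < μ →
    A0 ≤ μ * Real.log T ^ 2 → μ * Real.log T ≤ δ →
    volume {t : ℝ | t ∈ Icc T (2 * T) ∧
      ∀ y u : ℝ, |y - t| ≤ ρ * (μ * Real.log T) → (1 / 2 - 2 * ε) * Real.log T ≤ u →
        u ≤ (1 / 2 - ε) * Real.log T →
        ‖Wg μ u y‖ < Real.sqrt μ * Real.exp (-(η * (μ * Real.log T ^ 2))) *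
          ‖riemannZeta (1 / 2 + (μ * Real.log T : ℝ) + (t : ℂ) * I)‖} ≤
      ENNReal.ofReal (ε0 * T)

end

end Pool.Agent.H466.HD
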