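import Pool.Agent.H466.HD.SA
import Pool.Agent.H466.HN.Stm5
import Pool.Agent.H466.HP.Stm4

/-!
# Statements, part B: few zeros of the backward heat flow near the line

`H = LL gk (-μ)` is the backward heat flow of `ξ` at the time `μ = A / L²`, `L = log T`,
`Δ = μ L = A / L`, `F = LL gk 0`.
-/

set_option autoImplicit false

namespace Pool.Agent.H466.HD

open Complex MeasureTheory Set Filter Topology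
open scoped ComplexConjugate
open Pool.Agent.H466.HF Pool.Agent.H466.LD Pool.Agent.H466.HP Pool.Agent.H466.HN
open Pool.Agent.H862.VK (Yz)

/-- **FB**: Gaussian averages of `F` at a complex frequency, from the backward heat flow -/
def S_FB : Prop := ∀ μ : ℝ, 0 < μ → ∀ (y : ℝ) (ω : ℂ),
  ‖∫ v : ℝ, LL gk 0 (((y + v : ℝ) : ℂ) * I) * cexp (-(I * ω * v)) *
      (Real.exp (-v ^ 2 / (8 * μ)) : ℂ)‖ ≤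
    2 * Real.exp (2 * μ * ω.re ^ 2) * ∫ v : ℝ, ‖LL gk (-μ) (((y + v : ℝ) : ℂ) * I)‖ *
      Real.exp (2 * ω.im * v) * Real.exp (-v ^ 2 / (4 * μ))

/-- **UH2**: upper bound for the backward heat flow on the whole line, around a regular point -/
def S_UH2 : Prop :=
  ∃ δ2 Kc : ℝ, 0 < δ2 ∧ 0 < Kc ∧ ∀ η : ℝ, 0 < η → ∃ κ0 : ℝ, 0 < κ0 ∧ ∀ κ : ℝ, 0 < κ → κ ≤ κ0 →
    ∀ A1 : ℝ, 1 ≤ A1 → ∃ A0 T0 : ℝ, 1 ≤ A0 ∧ 10 ≤ T0 ∧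
    ∀ T t μ : ℝ, T0 ≤ T → T ≤ t → t ≤ 2 * T → Rg T t A1 (1 / κ) κ → 0 < μ →
      A0 ≤ μ * Real.log T ^ 2 → μ * Real.log T ≤ δ2 →
      ∀ y : ℝ, ‖LL gk (-μ) ((y : ℂ) * I)‖ ≤ Gm T t μ *
        Real.exp (η * (μ * Real.log T ^ 2 + Real.log T * |y - t|) +
          Kc * Real.log T * (y - t) ^ 2)

/-- **GB**: from Gaussian averages of `F` to Gaussian averages of zeta -/
def S_GB : Prop := ∃ C T0 : ℝ, 0 < C ∧ 10 ≤ T0 ∧ ∀ T y μ u : ℝ, T0 ≤ T → T / 2 ≤ y → y ≤ 4 * T →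
  0 < μ → μ ≤ 1 → 0 ≤ u → u ≤ Real.log T →
  ∃ ω : ℂ, |ω.re - (Real.log T / 2 - u)| ≤ C ∧ |ω.im| ≤ C ∧
    ‖gz ((y : ℂ) * I)‖ * ‖Wg μ u y‖ ≤
      ‖∫ v : ℝ, LL gk 0 (((y + v : ℝ) : ℂ) * I) * cexp (-(I * ω * v)) *
        (Real.exp (-v ^ 2 / (8 * μ)) : ℂ)‖ +
      ‖gz ((y : ℂ) * I)‖ * T ^ (-(1 / 4 : ℝ))

/-- **GR**: the reference size and zeta -/
def S_GR : Prop := ∃ C κ0 : ℝ, 0 < C ∧ 0 < κ0 ∧ ∀ κ : ℝ, 0 < κ → κ ≤ κ0 → ∀ A1 : ℝ, 1 ≤ A1 →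
  ∃ T0 : ℝ, 10 ≤ T0 ∧ ∀ T t μ : ℝ, T0 ≤ T → T ≤ t → t ≤ 2 * T → Rg T t A1 (1 / κ) κ → 0 < μ →
    A1 ≤ μ * Real.log T ^ 2 → μ * Real.log T ≤ 1 / 2 →
    0 < Gm T t μ ∧
    (∀ y : ℝ, |y - t| ≤ 1 → Gm T t μ ≤ C * ‖gz ((y : ℂ) * I)‖ *
      ‖riemannZeta (1 / 2 + (μ * Real.log T : ℝ) + (t : ℂ) * I)‖) ∧
    T ^ (-(1 / 16 : ℝ)) ≤ ‖riemannZeta (1 / 2 + (μ * Real.log T : ℝ) + (t : ℂ) * I)‖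

/-- **HB**: the backward heat flow is not small near most points -/
def S_HB : Prop := ∀ ρ ε0 : ℝ, 0 < ρ → ρ ≤ 1 / 4 → 0 < ε0 →
  ∃ κ0 : ℝ, 0 < κ0 ∧ ∀ κ : ℝ, 0 < κ → κ ≤ κ0 → ∀ A1 : ℝ, 1 ≤ A1 →
    ∃ A0 δ T0 : ℝ, 1 ≤ A0 ∧ 0 < δ ∧ 10 ≤ T0 ∧ ∀ T μ : ℝ, T0 ≤ T → 0 < μ →
    A0 ≤ μ * Real.log T ^ 2 → μ * Real.log T ≤ δ →
    volume {t : ℝ | t ∈ Icc T (2 * T) ∧ Rg T t A1 (1 / κ) κ ∧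
      ∀ z : ℂ, ‖z - (t : ℂ) * I‖ ≤ ρ * (μ * Real.log T) →
        ‖LL gk (-μ) z‖ < Gm T t μ * Real.exp (-(ρ ^ 2 * (μ * Real.log T ^ 2)))} ≤
      ENNReal.ofReal (ε0 * T)

/-- **ZC**: few zeros near a regular point where the backward heat flow is not small -/
def S_ZC : Prop := ∃ C : ℝ, 0 < C ∧ ∀ ρ : ℝ, 0 < ρ → ρ ≤ 1 / 16 →
  ∃ κ0 δ2 : ℝ, 0 < κ0 ∧ 0 < δ2 ∧ ∀ κ : ℝ, 0 < κ → κ ≤ κ0 → ∀ A1 : ℝ, 1 ≤ A1 →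
    ∃ A0 T0 : ℝ, 1 ≤ A0 ∧ 10 ≤ T0 ∧
    ∀ T t μ : ℝ, T0 ≤ T → T ≤ t → t ≤ 2 * T → Rg T t A1 (1 / κ) κ → 0 < μ →
      A0 ≤ μ * Real.log T ^ 2 → μ * Real.log T ≤ δ2 →
      (∃ z : ℂ, ‖z - (t : ℂ) * I‖ ≤ ρ * (μ * Real.log T) ∧
        Gm T t μ * Real.exp (-(ρ ^ 2 * (μ * Real.log T ^ 2))) ≤ ‖LL gk (-μ) z‖) →
      ∀ S : Finset ℂ, (∀ z ∈ S, LL gk (-μ) z = 0 ∧ ‖z - (t : ℂ) * I‖ ≤ 2 * ρ * (μ * Real.log T)) →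
        ∑ z ∈ S, (analyticOrderNatAt (LL gk (-μ)) z : ℝ) ≤ C * ρ ^ 2 * (μ * Real.log T ^ 2)

/-- **CNTN**: local count of the zeros at the points regular at a larger scale -/
def S_CNTN : Prop :=
  ∃ κ C A0 T0 δ : ℝ, 0 < κ ∧ 0 < C ∧ 1 ≤ A0 ∧ 10 ≤ T0 ∧ 0 < δ ∧
    ∀ T t y0 μ : ℝ, T0 ≤ T → T / 2 ≤ t → t ≤ 4 * T → 0 < y0 → y0 ≤ 2 →
      Reg1 t y0 64 κ (Real.log T) → 0 < μ → A0 ≤ μ * Real.log T ^ 2 →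
      μ * Real.log T ≤ δ → μ * Real.log T ≤ 64 * y0 →
      ∀ S : Finset ℂ, (∀ z ∈ S, LL gk (-μ) z = 0 ∧ |z.im - t| ≤ μ * Real.log T ∧
          |z.re| ≤ μ * Real.log T) →
        ∑ z ∈ S, (analyticOrderNatAt (LL gk (-μ)) z : ℝ) ≤ C * (y0 * Real.log T)

/-- **FIN**: few zeros near the line -/
def S_FIN : Prop := ∃ C : ℝ, 0 < C ∧ ∀ ρ : ℝ, 0 < ρ → ρ ≤ 1 / 16 →
  ∃ A0 δ T0 : ℝ, 1 ≤ A0 ∧ 0 < δ ∧ 10 ≤ T0 ∧ ∀ T μ : ℝ, T0 ≤ T → 0 < μ →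
    A0 ≤ μ * Real.log T ^ 2 → μ * Real.log T ≤ δ →
    ∀ S : Finset ℂ, (∀ z ∈ S, LL gk (-μ) z = 0 ∧ |z.re| ≤ ρ * (μ * Real.log T) ∧
        T ≤ z.im ∧ z.im ≤ 2 * T) →
      ∑ z ∈ S, (analyticOrderNatAt (LL gk (-μ)) z : ℝ) ≤ C * ρ * (T * Real.log T)

end Pool.Agent.H466.HD
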