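import Pool.Agent.H466.HD.SB

/-!
# Statements, part C: lower bound for the number of all zeros of the backward heat flow
-/

set_option autoImplicit false

namespace Pool.Agent.H466.HD

open Complex MeasureTheory Set Filter Topology
open scoped ComplexConjugate
open Pool.Agent.H466.HF Pool.Agent.H466.LD Pool.Agent.H466.HP Pool.Agent.H466.HN
open Pool.Agent.H862.VK (Yz)

/-- **UL**: size of the backward heat flow at a bounded distance from the line -/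
def S_UL : Prop := ∀ R : ℝ, 2 ≤ R → ∃ C δ T0 : ℝ, 0 < C ∧ 0 < δ ∧ 10 ≤ T0 ∧
  ∀ T t μ : ℝ, T0 ≤ T → T ≤ t → t ≤ 2 * T → 0 < μ → μ * Real.log T ≤ δ →
    (∀ x y : ℝ, 0 ≤ x → x ≤ R → |y - t| ≤ R → ‖LL gk (-μ) ((x : ℂ) + (y : ℂ) * I)‖ ≤
      ‖gz ((t : ℂ) * I)‖ * Real.exp (Real.log T * (x / 2 + 1 / 2) + C)) ∧
    (∀ x y : ℝ, 2 ≤ x → x ≤ R → |y - t| ≤ R → ∃ s : ℝ, |s| ≤ 1 ∧
      ‖gz ((t : ℂ) * I)‖ * Real.exp (Real.log T * (x / 2) - C) ≤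
        ‖LL gk (-μ) (((x + s : ℝ) : ℂ) + (y : ℂ) * I)‖)

/-- **TLB**: lower bound for the number of all zeros -/
def S_TLB : Prop := ∃ c δ T0 : ℝ, 0 < c ∧ 0 < δ ∧ 10 ≤ T0 ∧
  ∀ T μ : ℝ, T0 ≤ T → 0 < μ → μ * Real.log T ≤ δ →
    ∃ S : Finset ℂ, (∀ z ∈ S, LL gk (-μ) z = 0 ∧ T ≤ z.im ∧ z.im ≤ 2 * T) ∧
      c * (T * Real.log T) ≤ ∑ z ∈ S, (analyticOrderNatAt (LL gk (-μ)) z : ℝ)

end Pool.Agent.H466.HD
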